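import Pool.Agent.T2H96.C3.Defs
import Pool.Agent.T2H96.C3.Bri

/-!
# `ZF` proves that no forcing satisfying `ccc₃` collapses `ω₁`

The definitions are in `Pool.Agent.T2H96.C3.Defs` and the files it names.

Proof. Suppose that `p` forces that `f` is a surjection from `ω` to `ω₁`. For a set `A` of
countable ordinals let `o(A)` be its order type. By `ccc₃`, if the values `f(i)` for `i < m(b)` are
decided together with `f(i₀) = b`, where `m` is any function to `ω`, then there are only countably
many values. The sets `V i` of the possible values of `f(i)` have the union `ω₁`, so some `V i₀` is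
infinite (otherwise they are enumerated uniformly). For `b` in `V i₀` let `A(b, n)` be the set of the
possible values of `f(i)` for `i < n` if `f(i₀) = b`. The union of the `A(b, n)` over all `n` is `ω₁`,
so for each `b` the ordinals `o(A(b, n))` are unbounded in `ω₁`. Fix `b₀` and a surjection `c` from
`V i₀` to `ω`, and let `m(b)` be the least `n` with `o(A(b₀, c(b))) ≤ o(A(b, n))`. The union `C` of the
sets `A(b, m(b))` is countable, but `o(C)` is at least `o(A(b₀, n))` for all `n`, a contradiction.
-/

namespace Pool.Agent.Results.MP_6e04fb_lc.NoCollapse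

open FirstOrder FirstOrder.Language
open Pool.Agent.Helper672.Plain (LSet)
open Pool.Agent.H310Cards (IsOmega)
open Pool.Agent.V11246 (IsSuccCard)
open Pool.Agent.H635Amen (ZF)
open Pool.Agent.T2H96.C3

universe u

/-- In every model of ZF: let `w` be `ω` and `w₁` be `ω₁`. If the forcing `P` with the order `r`
satisfies `ccc₃`, then no condition of `P` forces that `w₁` is countable. -/
theorem _root_.Pool.Agent.Results.MP_6e04fb_lc.NoCollapse.result :
    ∀ (M : Type u) [LSet.Structure M], ZF M → ∀ w w₁ r P : M,
      IsOmega w → IsSuccCard w₁ w → IsPreForcing r P → IsCCC3 w r P →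
        ¬ CollapsesToCountable w w₁ r P := by
  intro M _ hM w w₁ r P hw hw₁ hP hc
  exact Pool.Agent.Helper672.ZFA.V246.T2H96.no_collapse (hZ := hM) hw hw₁ hP hc

end Pool.Agent.Results.MP_6e04fb_lc.NoCollapse
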